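import Pool.Agent.D0H94.T13.StmC

/-!
# Averages with weights concentrated at `m ≈ c n` (project FM)
-/

set_option autoImplicit false

namespace Pool.Agent.D0H93.FM

open Filter Topology Finset Pool.Agent.D0H94.T13

noncomputable section

/-- pairs `(n, m)` with `n → ∞` and `m / (c n) → 1` -/
def FF (c : ℝ) : Filter (ℕ × ℕ) :=
  comap (fun p : ℕ × ℕ => (p.2 : ℝ) / (c * p.1)) (𝓝 1) ⊓ comap Prod.fst atTop

lemma FF_ratio (c : ℝ) : Tendsto (fun p : ℕ × ℕ => (p.2 : ℝ) / (c * p.1)) (FF c) (𝓝 1) :=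
  tendsto_comap.mono_left inf_le_left

lemma FF_fst (c : ℝ) : Tendsto (fun p : ℕ × ℕ => p.1) (FF c) atTop :=
  tendsto_comap.mono_left inf_le_right

lemma FF_cn {c : ℝ} (hc : 0 < c) : Tendsto (fun p : ℕ × ℕ => c * (p.1 : ℝ)) (FF c) atTop :=
  (tendsto_natCast_atTop_atTop.comp (FF_fst c)).const_mul_atTop hc

lemma FF_snd {c : ℝ} (hc : 0 < c) : Tendsto (fun p : ℕ × ℕ => p.2) (FF c) atTop := by
  rw [← tendsto_natCast_atTop_iff (R := ℝ)]
  have h1 := FF_cn hc
  have h2 := (FF_ratio c).pos_mul_atTop one_pos h1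
  refine h2.congr' ?_
  filter_upwards [h1.eventually_gt_atTop 0] with p hp
  exact div_mul_cancel₀ _ hp.ne'

lemma exp_small (q : ℝ) :
    Tendsto (fun n : ℕ => (n : ℝ) ^ q * Real.exp (-(1 * Real.log n ^ 2))) atTop (𝓝 0) := by
  have hl : Tendsto (fun n : ℕ => Real.log n) atTop atTop :=
    Real.tendsto_log_atTop.comp tendsto_natCast_atTop_atTop
  have h1 : Tendsto (fun y : ℝ => Real.exp ((q - y) * y)) atTop (𝓝 0) := by
    refine Real.tendsto_exp_atBot.comp ?_
    refine Tendsto.atBot_mul_atTop₀ ?_ tendsto_id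
    exact tendsto_const_nhds.add_atBot tendsto_neg_atTop_atBot |>.congr fun y => by ring
  refine (h1.comp hl).congr' ?_
  filter_upwards [eventually_gt_atTop 0] with n hn
  simp only [Function.comp]
  rw [Real.rpow_def_of_pos (by exact_mod_cast hn), ← Real.exp_add]
  congr 1
  ring

lemma far_small (K q B : ℝ) :
    Tendsto (fun n : ℕ => (K * (n : ℝ) ^ q + B) * Real.exp (-(1 * Real.log n ^ 2))) atTop (𝓝 0) := by
  have h1 := (exp_small q).const_mul K
  have h2 := (exp_small 0).const_mul B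
  have h3 := h1.add h2
  rw [mul_zero, mul_zero, add_zero] at h3
  refine h3.congr fun n => ?_
  rw [Real.rpow_zero]
  ring

lemma ratio_small (a : ℝ) : Tendsto (fun n : ℕ => a * (Real.log n / √(n : ℝ))) atTop (𝓝 0) := by
  have h1 : Tendsto (fun x : ℝ => Real.log x / x ^ (1 / 2 : ℝ)) atTop (𝓝 0) :=
    (isLittleO_log_rpow_atTop (by norm_num : (0:ℝ) < 1 / 2)).tendsto_div_nhds_zero
  have h2 := (h1.comp tendsto_natCast_atTop_atTop (α := ℕ)).const_mul a
  rw [mul_zero] at h2
  refine h2.congr fun n => ?_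
  simp only [Function.comp]
  rw [Real.sqrt_eq_rpow]

/-- averages: the limit along `n → ∞`, `m / (c n) → 1` is the limit of the averages -/
theorem avg {w : ℕ → ℕ → ℝ} {c : ℝ} (hw : Wts w c) (f : ℕ → ℕ → ℝ) (B K q : ℝ)
    (h1 : Tendsto (fun p : ℕ × ℕ => f p.1 p.2) (FF c) (𝓝 B))
    (h2 : ∀ n m : ℕ, 1 ≤ n → m ≤ n → |f n m| ≤ K * (n : ℝ) ^ q) :
    Tendsto (fun n : ℕ => ∑ m ∈ range (n + 1), w n m * f n m) atTop (𝓝 B) := by
  have hc := hw.c0
  rw [Metric.tendsto_atTop]
  intro ε hε
  have hb : (FF c).HasBasis (fun p : ℝ × ℕ => 0 < p.1 ∧ True) (fun p =>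
      (fun p : ℕ × ℕ => (p.2 : ℝ) / (c * p.1)) ⁻¹' Metric.ball 1 p.1 ∩ Prod.fst ⁻¹' Set.Ici p.2) :=
    (Metric.nhds_basis_ball.comap _).inf (atTop_basis.comap _)
  have h3 := (Metric.tendsto_nhds.1 h1) (ε / 2) (by linarith)
  rw [hb.eventually_iff] at h3
  obtain ⟨⟨η, n0⟩, ⟨hη, -⟩, h3⟩ := h3
  simp only at h3 hη
  obtain ⟨L, hL, hconc⟩ := hw.conc 1 one_pos
  have h4 : ∀ᶠ n : ℕ in atTop, L / c * (Real.log n / √(n : ℝ)) < η :=
    (ratio_small (L / c)).eventually (gt_mem_nhds hη)
  have h5 : ∀ᶠ n : ℕ in atTop, (K * (n : ℝ) ^ q + |B|) * Real.exp (-(1 * Real.log n ^ 2)) < ε / 2 :=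
    (far_small K q |B|).eventually (gt_mem_nhds (by linarith))
  obtain ⟨N, hN⟩ := (h4.and (h5.and ((eventually_ge_atTop 3).and (eventually_ge_atTop n0)))).exists_forall_of_atTop
  refine ⟨N, fun n hn => ?_⟩
  obtain ⟨h6, h7, h8, h9⟩ := hN n hn
  have hn0 : (0 : ℝ) < n := by
    have : 0 < n := by omega
    exact_mod_cast this
  rw [Real.dist_eq]
  have e1 : ∑ m ∈ range (n + 1), w n m * f n m - B = ∑ m ∈ range (n + 1), w n m * (f n m - B) := by
    simp_rw [mul_sub]
    rw [Finset.sum_sub_distrib, ← Finset.sum_mul, hw.one n h8, one_mul]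
  rw [e1]
  refine (Finset.abs_sum_le_sum_abs _ _).trans_lt ?_
  set P : ℕ → Prop := fun m : ℕ => L * (√(n : ℝ) * Real.log n) ≤ |(m : ℝ) - c * n| with hP
  rw [← Finset.sum_filter_add_sum_filter_not (range (n + 1)) P]
  have h10 : ∑ m ∈ (range (n + 1)).filter P, |w n m * (f n m - B)| ≤
      (K * (n : ℝ) ^ q + |B|) * Real.exp (-(1 * Real.log n ^ 2)) := by
    have hK : 0 ≤ K * (n : ℝ) ^ q := (abs_nonneg _).trans (h2 n 0 (by omega) (by omega))
    calc _ ≤ ∑ m ∈ (range (n + 1)).filter P, (K * (n : ℝ) ^ q + |B|) * w n m := by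
          refine Finset.sum_le_sum fun m hm => ?_
          rw [Finset.mem_filter, Finset.mem_range] at hm
          rw [abs_mul, abs_of_nonneg (hw.nonneg n m), mul_comm]
          refine mul_le_mul_of_nonneg_right ?_ (hw.nonneg n m)
          exact (abs_sub _ _).trans (add_le_add (h2 n m (by omega) (by omega)) le_rfl)
      _ = (K * (n : ℝ) ^ q + |B|) * ∑ m ∈ (range (n + 1)).filter P, w n m := by
          rw [Finset.mul_sum]
      _ ≤ _ := mul_le_mul_of_nonneg_left (hconc n h8) (by positivity)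
  have h11 : ∑ m ∈ (range (n + 1)).filter (fun m => ¬ P m), |w n m * (f n m - B)| ≤ ε / 2 := by
    calc _ ≤ ∑ m ∈ (range (n + 1)).filter (fun m => ¬ P m), ε / 2 * w n m := by
          refine Finset.sum_le_sum fun m hm => ?_
          rw [Finset.mem_filter, Finset.mem_range] at hm
          rw [abs_mul, abs_of_nonneg (hw.nonneg n m), mul_comm]
          refine mul_le_mul_of_nonneg_right ?_ (hw.nonneg n m)
          have h12 := hm.2
          rw [hP] at h12
          simp only [not_le] at h12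
          have hcn : 0 < c * n := by positivity
          have h13 : |(m : ℝ) / (c * n) - 1| < η := by
            have e2 : (m : ℝ) / (c * n) - 1 = (m - c * n) / (c * n) := by
              field_simp
            rw [e2, abs_div, abs_of_pos hcn, div_lt_iff₀ hcn]
            refine h12.trans_le ?_
            have h14 : L * (√(n : ℝ) * Real.log n) = L / c * (Real.log n / √(n : ℝ)) * (c * n) := by
              have hs : 0 < √(n : ℝ) := Real.sqrt_pos.2 hn0
              have hs2 : (n : ℝ) = √(n : ℝ) * √(n : ℝ) := (Real.mul_self_sqrt hn0.le).symm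
              have : L / c * (Real.log n / √(n : ℝ)) * (c * (√(n : ℝ) * √(n : ℝ))) =
                  L * (√(n : ℝ) * Real.log n) := by
                field_simp
              rw [← this, ← hs2]
            rw [h14]
            exact mul_le_mul_of_nonneg_right h6.le hcn.le
          have h15 := h3 (x := (n, m)) ⟨by
            simp only [Set.mem_preimage, Metric.mem_ball, Real.dist_eq]
            exact h13, by simpa using h9⟩
          simp only [Real.dist_eq] at h15
          exact h15.le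
      _ = ε / 2 * ∑ m ∈ (range (n + 1)).filter (fun m => ¬ P m), w n m := by rw [Finset.mul_sum]
      _ ≤ ε / 2 * 1 := by
          refine mul_le_mul_of_nonneg_left ?_ (by linarith)
          rw [← hw.one n h8]
          exact Finset.sum_le_sum_of_subset_of_nonneg (Finset.filter_subset _ _)
            fun m _ _ => hw.nonneg n m
      _ = _ := mul_one _
  linarith

end

end Pool.Agent.D0H93.FM
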