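import Pool.Agent.D0H93.FM.Avg

set_option autoImplicit false

namespace Pool.Agent.D0H93.FM

open Filter Topology Finset Pool.Agent.D0H94.T13

/-- module LIM1: limit laws pass through a concentrated random number of steps -/
theorem t_LIM1 : S_LIM1 := by
  intro w c hw G hG hmono θ Φ hθ hΦ hlim t ht
  have hc := hw.c0
  refine avg hw (fun n m => G m (t * (c * n) ^ θ)) (Φ t) 1 0 ?_ ?_
  · have hpos : ∀ᶠ p : ℕ × ℕ in FF c, 0 < p.1 ∧ 0 < p.2 :=
      ((FF_fst c).eventually_gt_atTop 0).and ((FF_snd hc).eventually_gt_atTop 0)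
    have hr : Tendsto (fun p : ℕ × ℕ => (c * (p.1 : ℝ)) / p.2) (FF c) (𝓝 1) := by
      have h := (FF_ratio c).inv₀ one_ne_zero
      rw [inv_one] at h
      refine h.congr fun p => ?_
      rw [inv_div]
    have hr2 : Tendsto (fun p : ℕ × ℕ => t * ((c * (p.1 : ℝ)) / p.2) ^ θ) (FF c) (𝓝 t) := by
      have h := (hr.rpow_const (p := θ) (Or.inl one_ne_zero)).const_mul t
      rwa [Real.one_rpow, mul_one] at h
    have key : ∀ p : ℕ × ℕ, 0 < p.1 ∧ 0 < p.2 →
        t * ((c * (p.1 : ℝ)) / p.2) ^ θ * (p.2 : ℝ) ^ θ = t * (c * p.1) ^ θ := by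
      intro p hp
      have h1 : (0 : ℝ) < p.1 := by exact_mod_cast hp.1
      have h2 : (0 : ℝ) < p.2 := by exact_mod_cast hp.2
      rw [mul_assoc, ← Real.mul_rpow (by positivity) h2.le, div_mul_cancel₀ _ h2.ne']
    have hct : ContinuousAt Φ t := hΦ.continuousAt (Ioi_mem_nhds ht)
    rw [tendsto_order]
    constructor
    · intro a ha
      have h1 : ∀ᶠ s in 𝓝[<] t, a < Φ s ∧ 0 < s ∧ s < t := by
        have h2 : ∀ᶠ s in 𝓝[<] t, a < Φ s := (hct.eventually (lt_mem_nhds ha)).filter_mono nhdsWithin_le_nhds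
        have h3 : ∀ᶠ s in 𝓝[<] t, 0 < s := (lt_mem_nhds ht).filter_mono nhdsWithin_le_nhds
        filter_upwards [h2, h3, self_mem_nhdsWithin] with s h4 h5 h6
        exact ⟨h4, h5, h6⟩
      obtain ⟨s, hs, hs0, hst⟩ := h1.exists
      filter_upwards [((hlim s hs0).comp (FF_snd hc)).eventually (lt_mem_nhds hs),
        hr2.eventually (lt_mem_nhds hst), hpos] with p h1 h2 h3
      refine lt_of_lt_of_le h1 (hmono _ ?_)
      rw [← key p h3]
      exact mul_le_mul_of_nonneg_right h2.le (by positivity)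
    · intro a ha
      have h1 : ∀ᶠ s in 𝓝[>] t, Φ s < a ∧ 0 < s ∧ t < s := by
        have h2 : ∀ᶠ s in 𝓝[>] t, Φ s < a := (hct.eventually (gt_mem_nhds ha)).filter_mono nhdsWithin_le_nhds
        have h3 : ∀ᶠ s in 𝓝[>] t, 0 < s := (lt_mem_nhds ht).filter_mono nhdsWithin_le_nhds
        filter_upwards [h2, h3, self_mem_nhdsWithin] with s h4 h5 h6
        exact ⟨h4, h5, h6⟩
      obtain ⟨s, hs, hs0, hst⟩ := h1.exists
      filter_upwards [((hlim s hs0).comp (FF_snd hc)).eventually (gt_mem_nhds hs),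
        hr2.eventually (gt_mem_nhds hst), hpos] with p h1 h2 h3
      refine lt_of_le_of_lt (hmono _ ?_) h1
      rw [← key p h3]
      exact mul_le_mul_of_nonneg_right h2.le (by positivity)
  · intro n m _ _
    rw [Real.rpow_zero, mul_one, abs_of_nonneg (hG _ _).1]
    exact (hG _ _).2

end Pool.Agent.D0H93.FM
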