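import Pool.Agent.D0H93.FM.Avg

set_option autoImplicit false

namespace Pool.Agent.D0H93.FM

open Filter Topology Finset Pool.Agent.D0H94.T13

/-- module LIM2: asymptotics of moments pass through a concentrated random number of steps -/
theorem t_LIM2 : S_LIM2 := by
  intro w c hw M q hM x B hlim
  have hc := hw.c0
  have h0 : Tendsto (fun n : ℕ => ∑ m ∈ range (n + 1), w n m * (M m / (c * n) ^ x)) atTop (𝓝 B) := by
    refine avg hw (fun n m => M m / (c * n) ^ x) B (2 ^ |q| / c ^ x) (|q| - x) ?_ ?_
    · have h1 := (hlim.comp (FF_snd hc)).mul ((FF_ratio c).rpow_const (p := x) (Or.inl one_ne_zero))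
      rw [Real.one_rpow, mul_one] at h1
      refine h1.congr' ?_
      filter_upwards [(FF_fst c).eventually_gt_atTop 0, (FF_snd hc).eventually_gt_atTop 0] with p hp1 hp2
      have h1 : (0 : ℝ) < p.1 := by exact_mod_cast hp1
      have h2 : (0 : ℝ) < p.2 := by exact_mod_cast hp2
      simp only [Function.comp]
      rw [Real.div_rpow h2.le (by positivity)]
      have h3 : (0 : ℝ) < (p.2 : ℝ) ^ x := Real.rpow_pos_of_pos h2 _
      have h4 : (0 : ℝ) < (c * (p.1 : ℝ)) ^ x := Real.rpow_pos_of_pos (by positivity) _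
      field_simp
    · intro n m hn hm
      have h1 : (0 : ℝ) < n := by exact_mod_cast hn
      have h2 : (m : ℝ) ≤ n := by exact_mod_cast hm
      have h3 : (1 : ℝ) ≤ n := by exact_mod_cast hn
      have h4 : (0 : ℝ) < (c * (n : ℝ)) ^ x := Real.rpow_pos_of_pos (by positivity) _
      have h5 : M m ≤ 2 ^ |q| * (n : ℝ) ^ |q| := by
        refine (hM m).2.trans ?_
        have h6 : (1 : ℝ) ≤ (m : ℝ) + 1 := by
          have : (0 : ℝ) ≤ m := Nat.cast_nonneg m
          linarith
        refine (Real.rpow_le_rpow_of_exponent_le h6 (le_abs_self q)).trans ?_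
        rw [← Real.mul_rpow (by norm_num) h1.le]
        exact Real.rpow_le_rpow (by linarith) (by linarith) (abs_nonneg q)
      rw [abs_of_nonneg (div_nonneg (hM m).1 h4.le), div_le_iff₀ h4]
      refine h5.trans (le_of_eq ?_)
      rw [Real.mul_rpow hc.le h1.le, Real.rpow_sub h1]
      have h7 : (0 : ℝ) < c ^ x := Real.rpow_pos_of_pos hc _
      have h8 : (0 : ℝ) < (n : ℝ) ^ x := Real.rpow_pos_of_pos h1 _
      field_simp
  refine h0.congr fun n => ?_
  rw [Finset.sum_div]
  exact Finset.sum_congr rfl fun m _ => (mul_div_assoc _ _ _).symm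

end Pool.Agent.D0H93.FM
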